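import Pool.Agent.Helper47.ER.Goals
import Mathlib

/-! Packet ER-TRA. -/

set_option autoImplicit false

namespace Pool.Agent.Helper53.ER.TRA

open MonoidAlgebra
open Pool.Agent.Helper47.EP (dm)

theorem finrank_ma (F : Type) [Field F] (L : Type) [Finite L] :
    Module.finrank F (MonoidAlgebra F L) = Nat.card L := by
  haveI := Fintype.ofFinite L
  have e : MonoidAlgebra F L ≃ₗ[F] (L →₀ F) :=
    { toFun := coeff, invFun := ofCoeff, left_inv := fun _ => rfl, right_inv := fun _ => rfl,
      map_add' := fun _ _ => rfl, map_smul' := fun _ _ => rfl }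
  rw [e.finrank_eq, Module.finrank_finsupp_self, Nat.card_eq_fintype_card]

theorem fin_ma (F : Type) [Field F] (L : Type) [Finite L] :
    Module.Finite F (MonoidAlgebra F L) := by
  have e : (L →₀ F) ≃ₗ[F] MonoidAlgebra F L :=
    { toFun := ofCoeff, invFun := coeff, left_inv := fun _ => rfl, right_inv := fun _ => rfl,
      map_add' := fun _ _ => rfl, map_smul' := fun _ _ => rfl }
  exact Module.Finite.equiv e

theorem t : Pool.Agent.Helper47.ER.S_TRA := by
  classical
  intro F _ L' L _ _ _ _ Ψ hΨ x hx
  haveI := fin_ma F L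
  haveI := fin_ma F L'
  refine ⟨comapDomain Ψ hΨ x, fun g => rfl, ?_, ?_⟩
  · refine mapDomain_comapDomain ?_ hΨ
    intro g hg
    obtain ⟨g', h⟩ := hx g (by simpa using hg)
    exact ⟨g', h⟩
  set x' := comapDomain Ψ hΨ x with hx'
  have hxx : mapDomainRingHom F Ψ x' = x := by
    refine mapDomain_comapDomain ?_ hΨ
    intro g hg
    obtain ⟨g', h⟩ := hx g (by simpa using hg)
    exact ⟨g', h⟩
  let Q := L ⧸ Ψ.range
  haveI : Finite Q := inferInstance
  haveI : Fintype Q := Fintype.ofFinite Q
  have hcard : Nat.card L = Nat.card Q * Nat.card L' := by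
    rw [Subgroup.card_eq_card_quotient_mul_card_subgroup Ψ.range]
    congr 1
    exact (Nat.card_congr (MonoidHom.ofInjective hΨ).toEquiv).symm
  -- the linear map
  let f : (Q → MonoidAlgebra F L') →ₗ[F] MonoidAlgebra F L :=
    { toFun := fun z => ∑ q : Q, mapDomainRingHom F Ψ (z q) * single (q.out)⁻¹ 1
      map_add' := by
        intro z w
        simp only [Pi.add_apply, map_add, add_mul, Finset.sum_add_distrib]
      map_smul' := by
        intro c z
        simp only [Pi.smul_apply, RingHom.id_apply, Finset.smul_sum]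
        refine Finset.sum_congr rfl fun q _ => ?_
        rw [← smul_mul_assoc]
        congr 1
        apply coeff_injective
        change Finsupp.mapDomain Ψ (c • (z q).coeff) = c • Finsupp.mapDomain Ψ (z q).coeff
        exact Finsupp.mapDomain_smul c _ }
  have hf : ∀ z, f z = ∑ q : Q, mapDomainRingHom F Ψ (z q) * single (q.out)⁻¹ 1 := fun z => rfl
  have hfx : ∀ z, f (fun q => x' * z q) = x * f z := by
    intro z
    rw [hf, hf, Finset.mul_sum]
    refine Finset.sum_congr rfl fun q _ => ?_
    rw [map_mul, hxx, mul_assoc]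
  have hsurj : Function.Surjective f := by
    rw [← LinearMap.range_eq_top, eq_top_iff]
    intro y _
    have hy : y = ∑ g ∈ y.coeff.support, single g (y.coeff g) := by
      conv_lhs => rw [← sum_coeff_single y]
      rfl
    rw [hy]
    refine Submodule.sum_mem _ fun g _ => ?_
    -- single g c
    let q : Q := QuotientGroup.mk g⁻¹
    have hq : (q.out)⁻¹ * g⁻¹ ∈ Ψ.range := by
      have : (QuotientGroup.mk q.out : Q) = QuotientGroup.mk g⁻¹ := Quotient.out_eq' q
      exact QuotientGroup.eq.mp this
    obtain ⟨b, hb⟩ := hq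
    refine ⟨fun q' => if q' = q then single b⁻¹ (y.coeff g) else 0, ?_⟩
    rw [hf, Finset.sum_eq_single q]
    · rw [if_pos rfl]
      change mapDomain Ψ (single b⁻¹ (y.coeff g)) * single (q.out)⁻¹ 1 = _
      rw [mapDomain_single, single_mul_single, mul_one, map_inv, hb]
      congr 1
      group
    · intro q' _ hq'
      rw [if_neg hq', map_zero, zero_mul]
    · intro h
      exact absurd (Finset.mem_univ q) h
  have hdim : Module.finrank F (Q → MonoidAlgebra F L') = Module.finrank F (MonoidAlgebra F L) := by
    rw [Module.finrank_pi_fintype, Finset.sum_const, finrank_ma, finrank_ma, hcard,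
      Finset.card_univ, Nat.card_eq_fintype_card (α := Q), smul_eq_mul]
  have hinj : Function.Injective f :=
    (LinearMap.injective_iff_surjective_of_finrank_eq_finrank hdim).mpr hsurj
  -- the range
  let R' := LinearMap.range (LinearMap.mulLeft F x')
  let G : (Q → R') →ₗ[F] MonoidAlgebra F L :=
    f ∘ₗ (LinearMap.pi fun q => R'.subtype ∘ₗ LinearMap.proj q)
  have hG : Function.Injective G := by
    intro z w h
    have h1 := hinj h
    funext q
    have h2 := congrFun h1 q
    exact Subtype.ext h2
  have hr : LinearMap.range G = LinearMap.range (LinearMap.mulLeft F x) := by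
    apply le_antisymm
    · rintro _ ⟨z, rfl⟩
      have h1 : ∀ q, ∃ u, x' * u = (z q : MonoidAlgebra F L') := fun q => (z q).2
      choose u hu using h1
      refine ⟨f u, ?_⟩
      rw [LinearMap.mulLeft_apply, ← hfx]
      change f (fun q => x' * u q) = f (fun q => (z q : MonoidAlgebra F L'))
      congr 1
      funext q
      exact hu q
    · rintro _ ⟨y, rfl⟩
      obtain ⟨z, rfl⟩ := hsurj y
      refine ⟨fun q => ⟨x' * z q, ⟨z q, rfl⟩⟩, ?_⟩
      rw [LinearMap.mulLeft_apply, ← hfx]
      rfl
  have h1 : dm x = Nat.card Q * dm x' := by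
    unfold dm
    rw [← hr, LinearMap.finrank_range_of_inj hG, Module.finrank_pi_fintype, Finset.sum_const,
      Finset.card_univ, smul_eq_mul, Nat.card_eq_fintype_card]
  rw [h1, hcard]
  ring

end Pool.Agent.Helper53.ER.TRA
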